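import Pool.Agent.H73.PHS.Stmts
import Pool.Agent.H79.TC.Osg

/-!
# Board PHS, row SMO: holomorphic functions are twice continuously differentiable
-/

set_option autoImplicit false

open Set Filter Topology MeasureTheory Metric

namespace Pool.PHS

/-- a continuous linear map on `ℂⁿ` in terms of its values on the basis vectors -/
private lemma smo_expand {n : ℕ} {F : Type} [NormedAddCommGroup F] [NormedSpace ℂ F]
    (T : Cn n →L[ℂ] F) :
    T = ∑ j, (ContinuousLinearMap.proj (R := ℂ) (φ := fun _ : Fin n => ℂ) j).smulRight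
      (T (Pi.single j 1)) := by
  ext v
  have h1 : v = ∑ j, v j • (Pi.single j (1 : ℂ) : Fin n → ℂ) := by
    ext k
    simp [Finset.sum_apply, Pi.single_apply]
  conv_lhs => rw [h1]
  rw [map_sum, _root_.sum_apply]
  refine Finset.sum_congr rfl fun j _ => ?_
  rw [map_smul]
  rfl

/-- the Frechet derivative of a holomorphic function is holomorphic -/
private lemma smo_fderiv {n : ℕ} {F : Type} [NormedAddCommGroup F] [NormedSpace ℂ F]
    [CompleteSpace F] {f : Cn n → F} {U : Set (Cn n)} (hU : IsOpen U)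
    (hf : DifferentiableOn ℂ f U) : DifferentiableOn ℂ (fderiv ℂ f) U := by
  have h2 : fderiv ℂ f = fun q =>
      ∑ j, (ContinuousLinearMap.proj (R := ℂ) (φ := fun _ : Fin n => ℂ) j).smulRight
        (fderiv ℂ f q (Pi.single j 1)) := funext fun q => smo_expand _
  rw [h2]
  refine DifferentiableOn.fun_sum fun j _ => ?_
  have h3 := Pool.Agent.H63.TC.osg_fderiv_apply hU hf (Pi.single j (1 : ℂ))
  exact (ContinuousLinearMap.smulRightL ℂ (Cn n) F
    (ContinuousLinearMap.proj (R := ℂ) (φ := fun _ : Fin n => ℂ) j)).differentiable.comp_differentiableOn h3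

/-- SMO -/
theorem SMO_thm : SMOStmt := by
  intro n F _ _ _ f U hU hf
  have h1 : DifferentiableOn ℂ (fderiv ℂ f) U := smo_fderiv hU hf
  have h2 : DifferentiableOn ℂ (fderiv ℂ (fderiv ℂ f)) U := smo_fderiv hU h1
  have h3 : ContDiffOn ℂ 1 (fderiv ℂ f) U := by
    have : ContDiffOn ℂ (0 + 1) (fderiv ℂ f) U := by
      rw [contDiffOn_succ_iff_fderiv_of_isOpen hU]
      exact ⟨h1, by simp, contDiffOn_zero.2 h2.continuousOn⟩
    simpa using this
  have h4 : ContDiffOn ℂ 2 f U := by
    have : ContDiffOn ℂ (1 + 1) f U := by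
      rw [contDiffOn_succ_iff_fderiv_of_isOpen hU]
      exact ⟨hf, by simp, h3⟩
    rw [one_add_one_eq_two] at this
    exact this
  exact ⟨h1, h4, h4.restrict_scalars ℝ⟩

end Pool.PHS
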